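import Pool.Agent.H20.ER3.Lib

/-!
# MP_816b90_co: Operation C, expansion of a root in the interior of a rung
-/

set_option autoImplicit false

open Pool.Agent.H48.ER Pool.Agent.H52.ER2 Pool.Agent.H66.ER2 Pool.Agent.H20.ER3

namespace Pool.Agent.H49.ER3

/-- (QB) expansion of a root in the interior of a rung -/
theorem pf_QB (hQA : U_QA) (hPR : U_PR) (hGW : U_GW) : U_QB := by
  intro V _ o G R F n g k hEv hMP hk0 hkn hgk
  obtain ⟨c, d, m, hc, hd, hsc, hsd, hint, hme⟩ := hQA V o G R F n g k hEv hMP hk0 hkn hgk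
  by_contra hcon
  have hnt : ∀ F' ∈ rt (vI n g), F' ≠ F → ¬ Tch G F F' :=
    fun F' h1 h2 h3 => hcon ⟨F', h1, h2, h3⟩
  obtain ⟨hm2, hcF, hdF, hip⟩ := hint
  obtain ⟨f, hf, f0, fm, hfX⟩ := IP.pf hip
  have hFR : F ⊆ R := hsc.2.1
  have hCn : Cn G F := hsc.2.2.1
  have hp := hMP.pi
  have hsp := hMP.al.1
  have hFm : Sum.inr F ∈ vI n g := ⟨0, k, by omega, hgk⟩
  have hfF : ∀ i, 1 ≤ i → i + 1 ≤ m → f i ∈ F := by
    intro i h1 h2
    have h3 : f i ∈ insert c (insert d F) := by
      rw [hfX]; exact mem_seg (Nat.zero_le _) (by omega)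
    rcases h3 with h3 | h3 | h3
    · rw [← f0] at h3
      have := hf.inj _ _ (by omega) (by omega) h3
      omega
    · rw [← fm] at h3
      have := hf.inj _ _ (by omega) (by omega) h3
      omega
    · exact h3
  have hFf : ∀ r ∈ F, ∃ i, 1 ≤ i ∧ i + 1 ≤ m ∧ f i = r := by
    intro r hr
    have h3 : r ∈ insert c (insert d F) := Or.inr (Or.inr hr)
    rw [hfX] at h3
    obtain ⟨i, _, hi, rfl⟩ := h3
    refine ⟨i, ?_, ?_, rfl⟩
    · rcases Nat.eq_zero_or_pos i with h | h
      · rw [h, f0] at hr
        exact absurd hr hcF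
      · exact h
    · rcases Nat.lt_or_ge i m with h | h
      · exact h
      · have h4 : i = m := by omega
        rw [h4, fm] at hr
        exact absurd hr hdF
  -- the vertices of `F` are not on the prism
  have hne : ∀ j l, l ≤ n j → ∀ r ∈ F, g j l ≠ Sum.inl r := by
    intro j l hl r hr e
    exact (hsp F hFm r (hFR hr) (e ▸ mem_vI hl)).1 hr
  have hkey : ∀ j l, l ≤ n j → ∀ i, 1 ≤ i → i + 1 ≤ m →
      ((MG G R).Adj (g j l) (Sum.inl (f i)) ↔
        j = 0 ∧ ((l + 1 = k ∧ i = 1) ∨ (l = k + 1 ∧ i + 1 = m))) := by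
    intro j l hl i h1 h2
    constructor
    · intro ha
      rcases hv : g j l with v | F'
      · rw [hv] at ha
        have ha' : G.Adj v (f i) := ha
        by_cases hvR : v ∈ R
        · exact absurd ha' ((hsp F hFm v hvR (hv ▸ mem_vI hl)).2 _ (hfF i h1 h2))
        · have hs : (MG G R).Adj (Sum.inr F) (Sum.inl v) :=
            ⟨hvR, hFR, hCn, f i, hfF i h1 h2, ha'⟩
          rw [← hgk, ← hv, hp.adj _ _ _ _ (by omega) hl] at hs
          rcases hs with ⟨rfl, hs | hs⟩ | ⟨_, hs | hs⟩
          · refine ⟨rfl, Or.inr ⟨by omega, ?_⟩⟩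
            rw [← hs, hd] at hv
            have hvd : v = f m := by rw [fm]; exact (Sum.inl.inj hv).symm
            rw [hvd, hf.adj _ _ (by omega) (by omega)] at ha'
            omega
          · refine ⟨rfl, Or.inl ⟨hs, ?_⟩⟩
            have e : l = k - 1 := by omega
            rw [e, hc] at hv
            have hvc : v = f 0 := by rw [f0]; exact (Sum.inl.inj hv).symm
            rw [hvc, hf.adj _ _ (by omega) (by omega)] at ha'
            omega
          · omega
          · omega
      · rw [hv] at ha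
        exact absurd (hFR (hfF i h1 h2)) (show Sees G R F' (f i) from ha).1
    · rintro ⟨rfl, ⟨h3, h4⟩ | ⟨h3, h4⟩⟩
      · have e : l = k - 1 := by omega
        rw [e, hc]
        show G.Adj c (f i)
        rw [← f0, hf.adj _ _ (by omega) (by omega)]
        omega
      · rw [h3, hd]
        show G.Adj d (f i)
        rw [← fm, hf.adj _ _ (by omega) (by omega)]
        omega
  -- the new rung
  obtain ⟨h, hh⟩ : ∃ h : ℕ → V ⊕ Set V, h = fun x => if x < k then g 0 x else
    if x < k - 1 + m then Sum.inl (f (x - (k - 1))) else g 0 (x + 2 - m) := ⟨_, rfl⟩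
  have hA : ∀ x, x < k → h x = g 0 x := by
    intro x hx
    rw [hh]
    simp only [hx, if_true]
  have hB : ∀ x, k ≤ x → x < k - 1 + m → h x = Sum.inl (f (x - (k - 1))) := by
    intro x h1 h2
    rw [hh]
    have h3 : ¬ x < k := by omega
    simp only [h3, h2, if_true, if_false]
  have hC : ∀ x, k - 1 + m ≤ x → h x = g 0 (x + 2 - m) := by
    intro x h1
    rw [hh]
    have h3 : ¬ x < k := by omega
    have h4 : ¬ x < k - 1 + m := by omega
    simp only [h3, h4, if_false]
  have hcase : ∀ x, x < k ∨ (k ≤ x ∧ x < k - 1 + m) ∨ k - 1 + m ≤ x := by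
    intro x; omega
  have hPF : PF (MG G R) (n 0 + m - 2) h := by
    constructor
    · intro x y hx hy e
      rcases hcase x with h1 | ⟨h1, h1'⟩ | h1 <;> rcases hcase y with h2 | ⟨h2, h2'⟩ | h2
      · rw [hA x h1, hA y h2] at e
        exact (hp.inj _ _ _ _ (by omega) (by omega) e).2
      · rw [hA x h1, hB y h2 h2'] at e
        exact absurd e (hne _ _ (by omega) _ (hfF _ (by omega) (by omega)))
      · rw [hA x h1, hC y h2] at e
        have := (hp.inj _ _ _ _ (by omega) (by omega) e).2
        omega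
      · rw [hB x h1 h1', hA y h2] at e
        exact absurd e.symm (hne _ _ (by omega) _ (hfF _ (by omega) (by omega)))
      · rw [hB x h1 h1', hB y h2 h2'] at e
        have := hf.inj _ _ (by omega) (by omega) (Sum.inl.inj e)
        omega
      · rw [hB x h1 h1', hC y h2] at e
        exact absurd e.symm (hne _ _ (by omega) _ (hfF _ (by omega) (by omega)))
      · rw [hC x h1, hA y h2] at e
        have := (hp.inj _ _ _ _ (by omega) (by omega) e).2
        omega
      · rw [hC x h1, hB y h2 h2'] at e
        exact absurd e (hne _ _ (by omega) _ (hfF _ (by omega) (by omega)))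
      · rw [hC x h1, hC y h2] at e
        have := (hp.inj _ _ _ _ (by omega) (by omega) e).2
        omega
    · intro x y hx hy
      rcases hcase x with h1 | ⟨h1, h1'⟩ | h1 <;> rcases hcase y with h2 | ⟨h2, h2'⟩ | h2
      · rw [hA x h1, hA y h2, hp.adj _ _ _ _ (by omega) (by omega)]
        simp
      · rw [hA x h1, hB y h2 h2', hkey _ _ (by omega) _ (by omega) (by omega)]
        simp only [true_and]
        omega
      · rw [hA x h1, hC y h2, hp.adj _ _ _ _ (by omega) (by omega)]
        simp only [true_and, ne_eq, not_true_eq_false, false_and, or_false]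
        omega
      · rw [hB x h1 h1', hA y h2, SimpleGraph.adj_comm, hkey _ _ (by omega) _ (by omega) (by omega)]
        simp only [true_and]
        omega
      · rw [hB x h1 h1', hB y h2 h2']
        show G.Adj _ _ ↔ _
        rw [hf.adj _ _ (by omega) (by omega)]
        omega
      · rw [hB x h1 h1', hC y h2, SimpleGraph.adj_comm, hkey _ _ (by omega) _ (by omega) (by omega)]
        simp only [true_and]
        omega
      · rw [hC x h1, hA y h2, hp.adj _ _ _ _ (by omega) (by omega)]
        simp only [true_and, ne_eq, not_true_eq_false, false_and, or_false]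
        omega
      · rw [hC x h1, hB y h2 h2', hkey _ _ (by omega) _ (by omega) (by omega)]
        simp only [true_and]
        omega
      · rw [hC x h1, hC y h2, hp.adj _ _ _ _ (by omega) (by omega)]
        simp only [true_and, ne_eq, not_true_eq_false, false_and, or_false]
        omega
  have hcross : ∀ j x l, j ≠ 0 → x ≤ n 0 + m - 2 → l ≤ n j → h x ≠ g j l ∧
      ((MG G R).Adj (h x) (g j l) ↔ (x = 0 ∧ l = 0) ∨ (x = n 0 + m - 2 ∧ l = n j)) := by
    intro j x l hj hx hl
    rcases hcase x with h1 | ⟨h1, h1'⟩ | h1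
    · rw [hA x h1]
      refine ⟨fun e => hj (hp.inj _ _ _ _ (by omega) hl e).1.symm, ?_⟩
      rw [hp.adj _ _ _ _ (by omega) hl]
      have hj' : (0 : Fin 3) ≠ j := fun e => hj e.symm
      simp only [hj', false_and, false_or, ne_eq, not_false_eq_true, true_and]
      omega
    · rw [hB x h1 h1']
      refine ⟨fun e => hne _ _ hl _ (hfF _ (by omega) (by omega)) e.symm, ?_⟩
      rw [SimpleGraph.adj_comm, hkey _ _ hl _ (by omega) (by omega)]
      simp only [hj, false_and, false_iff]
      omega
    · rw [hC x h1]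
      refine ⟨fun e => hj (hp.inj _ _ _ _ (by omega) hl e).1.symm, ?_⟩
      rw [hp.adj _ _ _ _ (by omega) hl]
      have hj' : (0 : Fin 3) ≠ j := fun e => hj e.symm
      simp only [hj', false_and, false_or, ne_eq, not_false_eq_true, true_and]
      omega
  have hnew := hPR _ (MG G R) n g (n 0 + m - 2) h hp (by omega) hPF
    (fun j x l hj hx hl => hcross j x l hj hx hl)
  have hodd : ∀ i, Odd (Function.update n 0 (n 0 + m - 2) i) := by
    intro i
    by_cases hi : i = 0
    · subst hi
      rw [Function.update_self]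
      have h1 := hMP.odd 0
      rw [Nat.odd_iff] at h1 ⊢
      rw [Nat.even_iff] at hme
      omega
    · rw [Function.update_of_ne hi]
      exact hMP.odd i
  -- the vertices of the new prism
  have hmem : ∀ w ∈ vI (Function.update n 0 (n 0 + m - 2)) (Function.update g 0 h),
      (w ∈ vI n g ∧ w ≠ Sum.inr F) ∨ ∃ r ∈ F, w = Sum.inl r := by
    rintro w ⟨i, x, hx, rfl⟩
    by_cases hi : i = 0
    · subst hi
      rw [Function.update_self] at hx ⊢
      rcases hcase x with h1 | ⟨h1, h1'⟩ | h1
      · rw [hA x h1]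
        refine Or.inl ⟨mem_vI (by omega), ?_⟩
        rw [← hgk]
        intro e
        have := (hp.inj _ _ _ _ (by omega) (by omega) e).2
        omega
      · rw [hB x h1 h1']
        exact Or.inr ⟨_, hfF _ (by omega) (by omega), rfl⟩
      · rw [hC x h1]
        refine Or.inl ⟨mem_vI (by omega), ?_⟩
        rw [← hgk]
        intro e
        have := (hp.inj _ _ _ _ (by omega) (by omega) e).2
        omega
    · rw [Function.update_of_ne hi] at hx ⊢
      refine Or.inl ⟨mem_vI hx, ?_⟩
      rw [← hgk]
      intro e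
      exact hi (hp.inj _ _ _ _ hx (by omega) e).1
  have hrt : rt (vI (Function.update n 0 (n 0 + m - 2)) (Function.update g 0 h)) ⊆
      rt (vI n g) \ {F} := by
    intro F' hF'
    rcases hmem _ hF' with ⟨h1, h2⟩ | ⟨r, _, h1⟩
    · exact ⟨h1, fun e => h2 (by rw [Set.mem_singleton_iff.1 e])⟩
    · cases h1
  have hal : Al o G R (vI (Function.update n 0 (n 0 + m - 2)) (Function.update g 0 h)) := by
    refine ⟨?_, fun ho => (hMP.al.2 ho).anti fun F' hF' => (hrt hF').1⟩
    intro F' hF' r hr hrm
    have h1 := hrt hF'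
    rcases hmem _ hrm with ⟨h2, _⟩ | ⟨r', hr', h2⟩
    · exact hsp F' h1.1 r hr h2
    · have e : r = r' := Sum.inl.inj h2
      subst e
      have h3 := hnt F' h1.1 (fun e => h1.2 e)
      exact ⟨fun h4 => h3 ⟨r, hr', r, h4, Or.inl rfl⟩, fun f' hf' h4 => h3 ⟨r, hr', f', hf', Or.inr h4⟩⟩
  have h1 := (hGW V (vI n g) _ F hFm).2.2 hrt
  have h2 := hMP.mn _ _ hnew hodd hal
  omega

end Pool.Agent.H49.ER3
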